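import Pool.Agent.N939.ME.Stm

/-! # Project ME (helper939), step ME16 (helper691): sampling a martingale at the good times -/

set_option autoImplicit false
open MeasureTheory ProbabilityTheory Filter Topology Finset
open scoped Classical

namespace Pool.Agent.N691.ME

open Pool.Agent.N939.ME

noncomputable section

/-! ### The next good time -/

theorem nx_ex (b : ℕ → Prop) (N k : ℕ) : ∃ t, min k N ≤ t ∧ (t = N ∨ ¬ b t) :=
  ⟨N, min_le_right _ _, Or.inl rfl⟩

/-- the first good time from `k` on, or `N` -/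
def nx (b : ℕ → Prop) (N k : ℕ) : ℕ := Nat.find (nx_ex b N k)

variable (b : ℕ → Prop) (N : ℕ)

theorem nx_ge (k : ℕ) : min k N ≤ nx b N k := (Nat.find_spec (nx_ex b N k)).1

theorem nx_good (k : ℕ) : nx b N k = N ∨ ¬ b (nx b N k) := (Nat.find_spec (nx_ex b N k)).2

theorem nx_min {k t : ℕ} (h1 : min k N ≤ t) (h2 : t = N ∨ ¬ b t) : nx b N k ≤ t :=
  Nat.find_min' (nx_ex b N k) ⟨h1, h2⟩

theorem nx_le (k : ℕ) : nx b N k ≤ N := nx_min b N (min_le_right _ _) (Or.inl rfl)

theorem nx_bad {k s : ℕ} (h1 : min k N ≤ s) (h2 : s < nx b N k) : b s := by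
  by_contra h
  have := nx_min b N h1 (Or.inr h)
  omega

theorem nx_mono {k k' : ℕ} (h : k ≤ k') : nx b N k ≤ nx b N k' :=
  nx_min b N (le_trans (min_le_min_right _ h) (nx_ge b N k')) (nx_good b N k')

theorem nx_self {k : ℕ} (hk : k < N) (h : ¬ b k) : nx b N k = k := by
  apply le_antisymm
  · exact nx_min b N (min_le_left _ _) (Or.inr h)
  · have := nx_ge b N k
    rwa [min_eq_left hk.le] at this

theorem nx_succ_bad {k : ℕ} (hk : k < N) (h : b k) : nx b N (k + 1) = nx b N k := by
  apply le_antisymm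
  · apply nx_min b N _ (nx_good b N k)
    have h1 := nx_ge b N k
    rw [min_eq_left hk.le] at h1
    rw [min_eq_left (by omega : k + 1 ≤ N)]
    rcases nx_good b N k with h2 | h2
    · omega
    · have : nx b N k ≠ k := by
        intro h3
        rw [h3] at h2
        exact h2 h
      omega
  · exact nx_mono b N (Nat.le_succ k)

theorem nx_top : nx b N N = N := by
  apply le_antisymm (nx_le b N N)
  have := nx_ge b N N
  rwa [min_self] at this

theorem nx_le_iff (k i : ℕ) :
    nx b N k ≤ i ↔ N ≤ i ∨ ∃ s ∈ (range (i + 1)).filter (fun s => min k N ≤ s), ¬ b s := by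
  constructor
  · intro h
    rcases nx_good b N k with h1 | h1
    · left; omega
    · right
      refine ⟨nx b N k, ?_, h1⟩
      rw [Finset.mem_filter, Finset.mem_range]
      exact ⟨by omega, nx_ge b N k⟩
  · rintro (h | ⟨s, hs, h⟩)
    · exact (nx_le b N k).trans h
    · rw [Finset.mem_filter, Finset.mem_range] at hs
      have := nx_min b N hs.2 (Or.inr h)
      omega

/-! ### Runs -/

theorem run_bad (g : ℕ → ℝ) (a t : ℕ) (hat : a ≤ t) (h : ∀ s, a ≤ s → s < t → b s) :
    run g b t = run g b a + ∑ s ∈ Ico a t, g s := by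
  induction t, hat using Nat.le_induction with
  | base => simp
  | succ t hat ih =>
    rw [Finset.sum_Ico_succ_top hat, ← add_assoc, ← ih fun s h1 h2 => h s h1 (by omega)]
    simp only [run]
    rw [if_pos (h t hat (by omega))]

theorem run_good (g : ℕ → ℝ) (k : ℕ) (h : ¬ b k) : run g b (k + 1) = 0 := by
  simp only [run]
  rw [if_neg h]

/-- the terms of the energy -/
def psi (g : ℕ → ℝ) (t : ℕ) : ℝ := if t = N then run g b t ^ 2 else if b t then 0 else run g b t ^ 2

theorem psi_nonneg (g : ℕ → ℝ) (t : ℕ) : 0 ≤ psi b N g t := by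
  unfold psi
  split_ifs <;> positivity

theorem en_eq (hENP : S_ENP) (g : ℕ → ℝ) : en g b N = ∑ t ∈ range (N + 1), psi b N g t := by
  rw [(hENP g b N).1, Finset.sum_range_succ, add_comm]
  congr 1
  · apply Finset.sum_congr rfl
    intro t ht
    rw [Finset.mem_range] at ht
    unfold psi
    rw [if_neg ht.ne]
  · unfold psi
    rw [if_pos rfl]

theorem psi_nx (g : ℕ → ℝ) (k : ℕ) : psi b N g (nx b N k) = run g b (nx b N k) ^ 2 := by
  unfold psi
  rcases nx_good b N k with h | h
  · rw [if_pos h]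
  · rw [if_neg h]
    split_ifs <;> rfl

/-! ### The pointwise inequalities -/

theorem near (M g : ℕ → ℝ) (w : ℝ) (hw : 0 ≤ w) (hN : M N = ∑ s ∈ range N, g s)
    (hM : ∀ t < N, ¬ b t → |M t - ∑ s ∈ range t, g s| ≤ w) (k : ℕ) :
    |M (nx b N k) - ∑ s ∈ range (nx b N k), g s| ≤ w := by
  rcases (nx_le b N k).lt_or_eq with h | h
  · rcases nx_good b N k with h1 | h1
    · omega
    · exact hM _ h h1
  · rw [h, hN, sub_self, abs_zero]; exact hw

theorem pt0 (hENP : S_ENP) (M g : ℕ → ℝ) (w : ℝ) (hw : 0 ≤ w) (hN : M N = ∑ s ∈ range N, g s)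
    (hM : ∀ t < N, ¬ b t → |M t - ∑ s ∈ range t, g s| ≤ w) :
    M (nx b N 0) ^ 2 ≤ 2 * w ^ 2 + 2 * en g b N := by
  have h1 := near b N M g w hw hN hM 0
  have h2 : run g b (nx b N 0) = ∑ s ∈ range (nx b N 0), g s := by
    rw [run_bad b g 0 (nx b N 0) (Nat.zero_le _) (fun s _ h => nx_bad b N (by simp) h)]
    rw [Finset.range_eq_Ico]
    simp only [run, zero_add]
  have h3 : run g b (nx b N 0) ^ 2 ≤ en g b N := by
    rw [en_eq b N hENP, ← psi_nx b N g 0]
    exact Finset.single_le_sum (s := range (N + 1)) (f := psi b N g) (a := nx b N 0)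
      (fun t _ => psi_nonneg b N g t)
      (Finset.mem_range.2 (Nat.lt_succ_of_le (nx_le b N 0)))
  rw [← h2] at h1
  have h4 : (M (nx b N 0) - run g b (nx b N 0)) ^ 2 ≤ w ^ 2 := by
    rw [← sq_abs]
    exact pow_le_pow_left₀ (abs_nonneg _) h1 2
  nlinarith [sq_nonneg (M (nx b N 0) - 2 * run g b (nx b N 0))]

theorem alg (x g R w : ℝ) (h : |x| ≤ |g| + |R| + 2 * w) :
    (if 4 * w < |x| then x ^ 2 else 0) ≤ 16 * ((if w < |g| then g ^ 2 else 0) + R ^ 2) := by
  have hg := abs_nonneg g
  have hR := abs_nonneg R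
  have hg2 : |g| ^ 2 = g ^ 2 := sq_abs g
  have hR2 : |R| ^ 2 = R ^ 2 := sq_abs R
  have hx2 : |x| ^ 2 = x ^ 2 := sq_abs x
  split_ifs with h1 h2 h2
  · have h3 : |x| ≤ 2 * (|g| + |R|) := by linarith
    have h4 : |x| ^ 2 ≤ (2 * (|g| + |R|)) ^ 2 := pow_le_pow_left₀ (abs_nonneg _) h3 2
    nlinarith [sq_nonneg (|g| - |R|)]
  · have h3 : |x| ≤ 2 * (|g| + |R|) := by linarith
    push Not at h2
    have h5 : |g| ≤ |R| := by linarith
    have h6 : |x| ≤ 4 * |R| := by linarith
    have h4 : |x| ^ 2 ≤ (4 * |R|) ^ 2 := pow_le_pow_left₀ (abs_nonneg _) h6 2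
    nlinarith
  · nlinarith
  · nlinarith

theorem pt1 (hENP : S_ENP) (M g : ℕ → ℝ) (w : ℝ) (hw : 0 ≤ w) (hN : M N = ∑ s ∈ range N, g s)
    (hM : ∀ t < N, ¬ b t → |M t - ∑ s ∈ range t, g s| ≤ w) :
    ∑ k ∈ range N, (if 4 * w < |M (nx b N (k + 1)) - M (nx b N k)| then
      (M (nx b N (k + 1)) - M (nx b N k)) ^ 2 else 0) ≤
    16 * (∑ t ∈ range N, (if w < |g t| then g t ^ 2 else 0) + en g b N) := by
  have h1 : ∀ k ∈ range N, (if 4 * w < |M (nx b N (k + 1)) - M (nx b N k)| then
      (M (nx b N (k + 1)) - M (nx b N k)) ^ 2 else 0) ≤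
      16 * ((if w < |g k| then g k ^ 2 else 0) + (if b k then 0 else psi b N g (nx b N (k + 1)))) := by
    intro k hk
    rw [Finset.mem_range] at hk
    by_cases hb : b k
    · rw [nx_succ_bad b N hk hb, sub_self, abs_zero, if_neg (by linarith), if_pos hb]
      have : 0 ≤ (if w < |g k| then g k ^ 2 else 0) := by split_ifs <;> positivity
      linarith
    · rw [if_neg hb, psi_nx]
      apply alg
      have e1 := near b N M g w hw hN hM (k + 1)
      have e2 := near b N M g w hw hN hM k
      rw [nx_self b N hk hb] at e2 ⊢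
      have hge := nx_ge b N (k + 1)
      rw [min_eq_left (by omega : k + 1 ≤ N)] at hge
      have e3 : run g b (nx b N (k + 1)) = ∑ s ∈ Ico (k + 1) (nx b N (k + 1)), g s := by
        rw [run_bad b g (k + 1) (nx b N (k + 1)) hge (fun s h h' =>
          nx_bad b N (le_trans (min_le_left _ _) h) h'), run_good b g k hb, zero_add]
      have e4 : ∑ s ∈ range (nx b N (k + 1)), g s = ∑ s ∈ range k, g s + g k +
          run g b (nx b N (k + 1)) := by
        rw [e3, ← Finset.sum_range_succ, Finset.sum_range_add_sum_Ico _ hge]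
      have e5 : M (nx b N (k + 1)) - M k = (M (nx b N (k + 1)) -
          ∑ s ∈ range (nx b N (k + 1)), g s) - (M k - ∑ s ∈ range k, g s) + g k +
          run g b (nx b N (k + 1)) := by
        rw [e4]; ring
      rw [e5]
      refine (abs_add_le _ _).trans ?_
      have e6 := abs_add_le ((M (nx b N (k + 1)) -
          ∑ s ∈ range (nx b N (k + 1)), g s) - (M k - ∑ s ∈ range k, g s)) (g k)
      have e7 := abs_sub (M (nx b N (k + 1)) -
          ∑ s ∈ range (nx b N (k + 1)), g s) (M k - ∑ s ∈ range k, g s)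
      linarith
  refine (Finset.sum_le_sum h1).trans ?_
  rw [← Finset.mul_sum, Finset.sum_add_distrib]
  have h2 : ∑ k ∈ range N, (if b k then 0 else psi b N g (nx b N (k + 1))) ≤ en g b N := by
    have e1 : ∑ k ∈ range N, (if b k then 0 else psi b N g (nx b N (k + 1))) =
        ∑ k ∈ (range N).filter (fun k => ¬ b k), psi b N g (nx b N (k + 1)) := by
      rw [Finset.sum_filter]
      apply Finset.sum_congr rfl
      intro k _
      by_cases hb : b k
      · rw [if_pos hb, if_neg (fun h => h hb)]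
      · rw [if_neg hb, if_pos hb]
    have e2 : Set.InjOn (fun k => nx b N (k + 1)) ((range N).filter (fun k => ¬ b k)) := by
      have key : ∀ k k' : ℕ, k < k' → k' < N → ¬ b k' → nx b N (k + 1) < nx b N (k' + 1) := by
        intro k k' hkk hk' hb
        have f1 : nx b N (k + 1) ≤ k' :=
          nx_min b N (le_trans (min_le_left _ _) hkk) (Or.inr hb)
        have f2 := nx_ge b N (k' + 1)
        rw [min_eq_left (by omega : k' + 1 ≤ N)] at f2
        omega
      intro k hk k' hk' heq
      rw [Finset.mem_coe, Finset.mem_filter, Finset.mem_range] at hk hk'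
      simp only at heq
      rcases lt_trichotomy k k' with h | h | h
      · have := key k k' h hk'.1 hk'.2; omega
      · exact h
      · have := key k' k h hk.1 hk.2; omega
    rw [e1, en_eq b N hENP, ← Finset.sum_image (f := psi b N g) e2]
    apply Finset.sum_le_sum_of_subset_of_nonneg
    · intro t ht
      rw [Finset.mem_image] at ht
      obtain ⟨k, -, rfl⟩ := ht
      exact Finset.mem_range.2 (Nat.lt_succ_of_le (nx_le b N _))
    · intro t _ _
      exact psi_nonneg b N g t
  linarith

/-! ### Integrability -/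

section prob

variable {Ω : Type} [mΩ : MeasurableSpace Ω] (μ : Measure Ω) [IsProbabilityMeasure μ]
  (F : Filtration ℕ mΩ) (M g : ℕ → Ω → ℝ) (bad : ℕ → Set Ω)

theorem run_memLp (hg : ∀ t, MemLp (g t) 2 μ) (hb : ∀ t, MeasurableSet[F t] (bad t)) (t : ℕ) :
    MemLp (fun ω => run (fun t => g t ω) (fun t => ω ∈ bad t) t) 2 μ := by
  induction t with
  | zero =>
    simp only [run]
    exact MemLp.zero
  | succ t ih =>
    have h1 : (fun ω => run (fun t => g t ω) (fun t => ω ∈ bad t) (t + 1)) =
        (bad t).indicator (fun ω => run (fun t => g t ω) (fun t => ω ∈ bad t) t + g t ω) := by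
      funext ω
      simp only [run, Set.indicator]
    rw [h1]
    exact MemLp.indicator (F.le t _ (hb t)) (ih.add (hg t))

theorem en_int (hg : ∀ t, MemLp (g t) 2 μ) (hb : ∀ t, MeasurableSet[F t] (bad t)) :
    Integrable (fun ω => en (fun t => g t ω) (fun t => ω ∈ bad t) N) μ := by
  unfold en
  apply integrable_finsetSum
  intro t _
  have h1 : (fun ω => if ω ∈ bad t then 2 * run (fun t => g t ω) (fun t => ω ∈ bad t) t * g t ω +
      g t ω ^ 2 else 0) = (bad t).indicator (fun ω =>
        2 * (run (fun t => g t ω) (fun t => ω ∈ bad t) t * g t ω) + g t ω ^ 2) := by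
    funext ω
    simp only [Set.indicator, mul_assoc]
  rw [h1]
  apply Integrable.indicator _ (F.le t _ (hb t))
  apply Integrable.add
  · exact ((run_memLp μ F g bad hg hb t).integrable_mul (hg t)).const_mul 2
  · exact (hg t).integrable_sq

/-! ### The stopping times -/

/-- the stopping times -/
def tau (k : ℕ) (ω : Ω) : WithTop ℕ := WithTop.some (nx (fun t => ω ∈ bad t) N k)

theorem tau_le_iff (k i : ℕ) (ω : Ω) :
    tau N bad k ω ≤ WithTop.some i ↔ nx (fun t => ω ∈ bad t) N k ≤ i := WithTop.coe_le_coe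

theorem tau_eq_iff (k i : ℕ) (ω : Ω) :
    tau N bad k ω = WithTop.some i ↔ nx (fun t => ω ∈ bad t) N k = i := WithTop.coe_inj

theorem tau_stop (hb : ∀ t, MeasurableSet[F t] (bad t)) (k : ℕ) : IsStoppingTime F (tau N bad k) := by
  intro i
  show MeasurableSet[F i] {ω | tau N bad k ω ≤ WithTop.some i}
  by_cases hi : N ≤ i
  · have : {ω | tau N bad k ω ≤ WithTop.some i} = Set.univ := by
      ext ω
      simp only [Set.mem_univ, iff_true]
      show tau N bad k ω ≤ WithTop.some i
      rw [tau_le_iff]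
      exact (nx_le _ N k).trans hi
    rw [this]
    exact MeasurableSet.univ
  · have : {ω | tau N bad k ω ≤ WithTop.some i} =
        ⋃ s ∈ (range (i + 1)).filter (fun s => min k N ≤ s), (bad s)ᶜ := by
      ext ω
      rw [Set.mem_iUnion₂]
      show tau N bad k ω ≤ WithTop.some i ↔ _
      rw [tau_le_iff, nx_le_iff]
      constructor
      · rintro (h | ⟨s, hs, h⟩)
        · exact absurd h hi
        · exact ⟨s, hs, h⟩
      · rintro ⟨s, hs, h⟩
        exact Or.inr ⟨s, hs, h⟩
    rw [this]
    apply Finset.measurableSet_biUnion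
    intro s hs
    rw [Finset.mem_filter, Finset.mem_range] at hs
    exact F.mono (by omega : s ≤ i) _ (hb s).compl

/-- the sampled filtration -/
def HF (hb : ∀ t, MeasurableSet[F t] (bad t)) : Filtration ℕ mΩ where
  seq k := (tau_stop N F bad hb k).measurableSpace
  mono' _ _ hij := IsStoppingTime.measurableSpace_mono _ _ fun _ =>
    WithTop.coe_le_coe.2 (nx_mono _ N hij)
  le' k := (tau_stop N F bad hb k).measurableSpace_le

theorem restr (hb : ∀ t, MeasurableSet[F t] (bad t)) (f : Ω → ℝ) (k i : ℕ) :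
    μ[f | HF N F bad hb k] =ᵐ[μ.restrict {ω | tau N bad k ω = WithTop.some i}] μ[f | F i] := by
  refine condExp_ae_eq_restrict_of_measurableSpace_eq_on ((HF N F bad hb).le k) (F.le i)
    ((tau_stop N F bad hb k).measurableSet_eq' i) fun t => ?_
  rw [Set.inter_comm _ t]
  exact (tau_stop N F bad hb k).measurableSet_inter_eq_iff t i

theorem set_meas (hb : ∀ t, MeasurableSet[F t] (bad t)) (k i : ℕ) :
    MeasurableSet[F i] {ω | tau N bad k ω = WithTop.some i} := (tau_stop N F bad hb k).measurableSet_eq i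

theorem restr' (hb : ∀ t, MeasurableSet[F t] (bad t)) (f : Ω → ℝ) (k : ℕ) :
    ∀ᵐ ω ∂μ, ∀ i : ℕ, nx (fun t => ω ∈ bad t) N k = i →
      (μ[f | HF N F bad hb k]) ω = (μ[f | F i]) ω := by
  rw [ae_all_iff]
  intro i
  have h := restr N μ F bad hb f k i
  rw [Filter.EventuallyEq, ae_restrict_iff' (F.le i _ (set_meas N F bad hb k i))] at h
  filter_upwards [h] with ω hω hi
  apply hω
  show tau N bad k ω = WithTop.some i
  rw [tau_eq_iff]
  exact hi

/-- the sampled martingale -/
def mm (hb : ∀ t, MeasurableSet[F t] (bad t)) (k : ℕ) : Ω → ℝ := μ[M N | HF N F bad hb k]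

theorem mm_eq (hM : Martingale M F μ) (hb : ∀ t, MeasurableSet[F t] (bad t)) (k : ℕ) :
    ∀ᵐ ω ∂μ, mm N μ F M bad hb k ω = M (nx (fun t => ω ∈ bad t) N k) ω := by
  have h1 := restr' N μ F bad hb (M N) k
  have h2 : ∀ᵐ ω ∂μ, ∀ i ∈ Finset.range (N + 1), (μ[M N | F i]) ω = M i ω := by
    rw [Filter.eventually_all_finset]
    intro i hi
    have hi' : i < N + 1 := Finset.mem_range.1 hi
    exact hM.condExp_ae_eq (by omega)
  filter_upwards [h1, h2] with ω h1 h2
  unfold mm
  rw [h1 _ rfl, h2 _ (Finset.mem_range.2 (Nat.lt_succ_of_le (nx_le _ N k)))]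

theorem mm_memLp (hM : Martingale M F μ) (hM2 : ∀ t, MemLp (M t) 2 μ)
    (hb : ∀ t, MeasurableSet[F t] (bad t)) (k : ℕ) : MemLp (mm N μ F M bad hb k) 2 μ := by
  have h1 : MemLp (fun ω => ∑ i ∈ range (N + 1),
      ({ω | tau N bad k ω = WithTop.some i} : Set Ω).indicator (M i) ω) 2 μ := by
    apply memLp_finsetSum
    intro i _
    exact MemLp.indicator (F.le i _ (set_meas N F bad hb k i)) (hM2 i)
  refine (memLp_congr_ae ?_).1 h1
  filter_upwards [mm_eq N μ F M bad hM hb k] with ω hω
  rw [hω, Finset.sum_eq_single (nx (fun t => ω ∈ bad t) N k)]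
  · rw [Set.indicator_of_mem]
    show tau N bad k ω = _
    rfl
  · intro i _ hi
    rw [Set.indicator_of_notMem]
    intro h
    apply hi
    have h' : tau N bad k ω = WithTop.some i := h
    exact ((tau_eq_iff N bad k i ω).1 h').symm
  · intro h
    exact absurd (Finset.mem_range.2 (Nat.lt_succ_of_le (nx_le _ N k))) h

theorem mm_meas (hb : ∀ t, MeasurableSet[F t] (bad t)) (k : ℕ) :
    Measurable (mm N μ F M bad hb k) :=
  (stronglyMeasurable_condExp.mono ((HF N F bad hb).le k)).measurable

theorem cond_var (K : ℝ) (hK : 0 ≤ K) (hM : Martingale M F μ) (hM2 : ∀ t, MemLp (M t) 2 μ)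
    (hb : ∀ t, MeasurableSet[F t] (bad t))
    (hV : ∀ t < N, ∀ᵐ ω ∂μ, ω ∉ bad t → (μ[fun ω => (M N ω - M t ω) ^ 2 | F t]) ω ≤ K) (k : ℕ) :
    ∀ᵐ ω ∂μ, (μ[fun ω => (mm N μ F M bad hb N ω - mm N μ F M bad hb k ω) ^ 2 |
      HF N F bad hb k]) ω ≤ K := by
  set f : Ω → ℝ := fun ω => (mm N μ F M bad hb N ω - mm N μ F M bad hb k ω) ^ 2 with hf
  have hfint : Integrable f μ :=
    ((mm_memLp N μ F M bad hM hM2 hb N).sub (mm_memLp N μ F M bad hM hM2 hb k)).integrable_sq
  have h1 := restr' N μ F bad hb f k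
  have h2 : ∀ᵐ ω ∂μ, ∀ i ∈ Finset.range (N + 1), nx (fun t => ω ∈ bad t) N k = i →
      (μ[f | F i]) ω ≤ K := by
    rw [Filter.eventually_all_finset]
    intro i hi
    have hi' : i < N + 1 := Finset.mem_range.1 hi
    set s : Set Ω := {ω | tau N bad k ω = WithTop.some i} with hs
    set fi : Ω → ℝ := fun ω => (M N ω - M i ω) ^ 2 with hfi
    have hfiint : Integrable fi μ := ((hM2 N).sub (hM2 i)).integrable_sq
    have hsm : MeasurableSet[F i] s := set_meas N F bad hb k i
    have e1 : s.indicator f =ᵐ[μ] s.indicator fi := by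
      filter_upwards [mm_eq N μ F M bad hM hb N, mm_eq N μ F M bad hM hb k] with ω hN hk
      by_cases hω : ω ∈ s
      · rw [Set.indicator_of_mem hω, Set.indicator_of_mem hω, hf, hfi]
        have hω' : nx (fun t => ω ∈ bad t) N k = i := by
          have : tau N bad k ω = WithTop.some i := hω
          exact (tau_eq_iff N bad k i ω).1 this
        simp only
        rw [hN, hk, nx_top, hω']
      · rw [Set.indicator_of_notMem hω, Set.indicator_of_notMem hω]
    have e2 : s.indicator (μ[f | F i]) =ᵐ[μ] s.indicator (μ[fi | F i]) :=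
      (condExp_indicator hfint hsm).symm.trans
        ((condExp_congr_ae e1).trans (condExp_indicator hfiint hsm))
    have e3 : ∀ᵐ ω ∂μ, ω ∈ s → (μ[fi | F i]) ω ≤ K := by
      rcases (Nat.lt_succ_iff.1 hi').lt_or_eq with h | h
      · filter_upwards [hV i h] with ω hω hs'
        apply hω
        have hω' : nx (fun t => ω ∈ bad t) N k = i := by
          have : tau N bad k ω = WithTop.some i := hs'
          exact (tau_eq_iff N bad k i ω).1 this
        rcases nx_good (fun t => ω ∈ bad t) N k with h3 | h3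
        · omega
        · rwa [hω'] at h3
      · have : fi = 0 := by
          funext ω
          rw [hfi, h]
          simp
        rw [this, condExp_zero]
        exact Filter.Eventually.of_forall fun ω _ => hK
    filter_upwards [e2, e3] with ω h3 h4 h5
    have hω : ω ∈ s := by
      show tau N bad k ω = WithTop.some i
      rw [tau_eq_iff]
      exact h5
    rw [Set.indicator_of_mem hω, Set.indicator_of_mem hω] at h3
    rw [h3]
    exact h4 hω
  filter_upwards [h1, h2] with ω h1 h2
  rw [h1 _ rfl]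
  exact h2 _ (Finset.mem_range.2 (Nat.lt_succ_of_le (nx_le _ N k))) rfl

end prob

/-- ME16 -/
theorem d2 (hENP : S_ENP) : S_D2 := by
  intro Ω mΩ μ _ F N M g bad w K hw hK hM hM2 hg2 hgm hb hMN hgood
  have hnear : ∀ᵐ ω ∂μ, ∀ t < N, ω ∉ bad t → |M t ω - ∑ s ∈ range t, g s ω| ≤ w := by
    have : ∀ᵐ ω ∂μ, ∀ t ∈ Set.Iio N, ω ∉ bad t → |M t ω - ∑ s ∈ range t, g s ω| ≤ w := by
      rw [ae_ball_iff (Set.to_countable _)]
      intro t ht
      filter_upwards [hgood t ht] with ω hω h
      exact (hω h).1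
    exact this
  have hVar : ∀ t < N, ∀ᵐ ω ∂μ, ω ∉ bad t → (μ[fun ω => (M N ω - M t ω) ^ 2 | F t]) ω ≤ K := by
    intro t ht
    filter_upwards [hgood t ht] with ω hω h
    exact (hω h).2
  have hen := en_int N μ F g bad hg2 hb
  have hml := mm_memLp N μ F M bad hM hM2 hb
  have hmm := mm_meas N μ F M bad hb
  refine ⟨HF N F bad hb, mm N μ F M bad hb, martingale_condExp _ _ _, hml,
    fun k _ => cond_var N μ F M bad K hK hM hM2 hb hVar k, ?_, ?_, ?_⟩
  · filter_upwards [mm_eq N μ F M bad hM hb N] with ω hω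
    rw [hω, nx_top]
  · have h1 : ∫ ω, mm N μ F M bad hb 0 ω ^ 2 ∂μ ≤
        ∫ ω, (2 * w ^ 2 + 2 * en (fun t => g t ω) (fun t => ω ∈ bad t) N) ∂μ := by
      apply integral_mono_ae (hml 0).integrable_sq
        ((integrable_const _).add (hen.const_mul 2))
      filter_upwards [mm_eq N μ F M bad hM hb 0, hMN, hnear] with ω h0 h1 h2
      rw [h0]
      exact pt0 (fun t => ω ∈ bad t) N hENP (fun t => M t ω) (fun t => g t ω) w hw h1 h2
    refine h1.trans (le_of_eq ?_)
    rw [integral_add (integrable_const _) (hen.const_mul 2), integral_const, integral_const_mul]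
    simp
  · have hint : ∀ k, Integrable (fun ω => if 4 * w < |mm N μ F M bad hb (k + 1) ω -
        mm N μ F M bad hb k ω| then (mm N μ F M bad hb (k + 1) ω -
        mm N μ F M bad hb k ω) ^ 2 else 0) μ := by
      intro k
      have e1 : (fun ω => if 4 * w < |mm N μ F M bad hb (k + 1) ω -
          mm N μ F M bad hb k ω| then (mm N μ F M bad hb (k + 1) ω -
          mm N μ F M bad hb k ω) ^ 2 else 0) =
          ({ω | 4 * w < |mm N μ F M bad hb (k + 1) ω - mm N μ F M bad hb k ω|} : Set Ω).indicator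
            (fun ω => (mm N μ F M bad hb (k + 1) ω - mm N μ F M bad hb k ω) ^ 2) := by
        funext ω
        simp only [Set.indicator, Set.mem_ofPred_eq]
      rw [e1]
      apply Integrable.indicator ((hml (k + 1)).sub (hml k)).integrable_sq
      apply measurableSet_lt measurable_const
      exact ((hmm (k + 1)).sub (hmm k)).abs
    have hgm' : ∀ t, Measurable (g t) := fun t => (hgm t).mono (F.le t) le_rfl
    have hint2 : ∀ t, Integrable (fun ω => if w < |g t ω| then g t ω ^ 2 else 0) μ := by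
      intro t
      have e1 : (fun ω => if w < |g t ω| then g t ω ^ 2 else 0) =
          ({ω | w < |g t ω|} : Set Ω).indicator (fun ω => g t ω ^ 2) := by
        funext ω
        simp only [Set.indicator, Set.mem_ofPred_eq]
      rw [e1]
      apply Integrable.indicator (hg2 t).integrable_sq
      exact measurableSet_lt measurable_const (hgm' t).abs
    rw [← integral_finsetSum _ fun k _ => hint k, ← integral_finsetSum _ fun t _ => hint2 t,
      ← integral_add (integrable_finsetSum _ fun t _ => hint2 t) hen, ← integral_const_mul]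
    apply integral_mono_ae (integrable_finsetSum _ fun k _ => hint k)
      (((integrable_finsetSum _ fun t _ => hint2 t).add hen).const_mul 16)
    have hall : ∀ᵐ ω ∂μ, ∀ k : ℕ, mm N μ F M bad hb k ω = M (nx (fun t => ω ∈ bad t) N k) ω := by
      rw [ae_all_iff]
      exact fun k => mm_eq N μ F M bad hM hb k
    filter_upwards [hall, hMN, hnear] with ω h0 h1 h2
    simp only [h0]
    exact pt1 (fun t => ω ∈ bad t) N hENP (fun t => M t ω) (fun t => g t ω) w hw h1 h2

end

end Pool.Agent.N691.ME
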